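import Pool.Agent.R610.Ramsey

open Set Topology Filter

namespace Pool.Agent.Results.MP_6a83a4_lc.ClosedMedPerm

open Pool.Agent.R610.Lift Pool.Agent.R610.Perm Pool.Agent.R610.Ramsey

/-! ### coding a permutation -/

/-- a bound -/
def Bd (k r : ℕ) : ℕ := max (12 * r + 9) (cv k r 0)

/-- a large value -/
noncomputable def Psi (g : BS) (k r : ℕ) : ℕ :=
  1 + (g (12 * r + 1) + g (12 * r + 4) + g (12 * r + 7)) +
    ∑ b ∈ Finset.range (Bd k r + 1), Function.invFun g b

/-- the next value -/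
noncomputable def nv (g : BS) (t r : ℕ) : ℕ := if t % 2 = 0 then g (t / 2) else Psi g (t / 2) (pop r)

/-- codes of the initial segments -/
noncomputable def rho (g : BS) : ℕ → ℕ
  | 0 => 0
  | (t + 1) => Nat.pair (rho g t) (nv g t (rho g t)) + 1

/-- the code of `g` -/
noncomputable def xg (g : BS) : BS := fun t => nv g t (rho g t)

theorem R_xg (g : BS) (t : ℕ) : R (xg g) t = rho g t := by
  induction t with
  | zero => rfl
  | succ t ih =>
    simp only [R, rho]
    rw [ih]
    rfl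

theorem xg_even (g : BS) (k : ℕ) : xg g (2 * k) = g k := by
  unfold xg nv
  rw [if_pos (by omega)]
  congr 1
  omega

theorem xg_odd (g : BS) (k : ℕ) : xg g (2 * k + 1) = Psi g k (R (xg g) (2 * k)) := by
  have h1 : xg g (2 * k + 1) = nv g (2 * k + 1) (rho g (2 * k + 1)) := rfl
  rw [h1]
  unfold nv
  rw [if_neg (by omega), ← R_xg, pop_R]
  congr 1
  omega

theorem g_pos_lt (g : BS) (k l : ℕ) (hl : l < 3) :
    g (pos (xg g) k l) < xg g (2 * k + 1) := by
  rw [xg_odd]
  unfold Psi pos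
  set r := R (xg g) (2 * k)
  have h : l = 0 ∨ l = 1 ∨ l = 2 := by omega
  rcases h with rfl | rfl | rfl
  · have h1 : 12 * r + 3 * 0 + 1 = 12 * r + 1 := by ring
    rw [h1]; omega
  · have h1 : 12 * r + 3 * 1 + 1 = 12 * r + 4 := by ring
    rw [h1]; omega
  · have h1 : 12 * r + 3 * 2 + 1 = 12 * r + 7 := by ring
    rw [h1]; omega

theorem lt_of_le_Bd {g : BS} (hg : Function.Injective g) (k n : ℕ)
    (h : g n ≤ Bd k (R (xg g) (2 * k))) : n < xg g (2 * k + 1) := by
  rw [xg_odd]
  unfold Psi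
  have h1 : Function.invFun g (g n) ≤
      ∑ b ∈ Finset.range (Bd k (R (xg g) (2 * k)) + 1), Function.invFun g b :=
    Finset.single_le_sum (f := fun b => Function.invFun g b) (fun _ _ => Nat.zero_le _)
      (Finset.mem_range.2 (by omega))
  rw [Function.leftInverse_invFun hg n] at h1
  omega

theorem pair_mono {a b c d : ℕ} (h1 : a ≤ c) (h2 : b ≤ d) : Nat.pair a b ≤ Nat.pair c d := by
  have h3 : Nat.pair a b ≤ Nat.pair c b := by
    rcases h1.eq_or_lt with rfl | h
    · exact le_rfl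
    · exact (Nat.pair_lt_pair_left b h).le
  have h4 : Nat.pair c b ≤ Nat.pair c d := by
    rcases h2.eq_or_lt with rfl | h
    · exact le_rfl
    · exact (Nat.pair_lt_pair_right c h).le
  exact h3.trans h4

theorem le_Bd1 (x : BS) {i k : ℕ} (h : i ≤ k) : 12 * R x (2 * i) + 9 ≤ Bd k (R x (2 * k)) := by
  have h1 : R x (2 * i) ≤ R x (2 * k) := (R_strictMono x).monotone (by omega)
  unfold Bd
  have := le_max_left (12 * R x (2 * k) + 9) (cv k (R x (2 * k)) 0)
  omega

theorem le_Bd2 (x : BS) {i k : ℕ} (h : i ≤ k) : cv i (R x (2 * i)) 0 ≤ Bd k (R x (2 * k)) := by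
  have h1 : R x (2 * i) ≤ R x (2 * k) := (R_strictMono x).monotone (by omega)
  unfold Bd
  refine le_trans ?_ (le_max_right _ _)
  unfold cv
  exact pair_mono (by omega) (pair_mono h1 le_rfl)

theorem pos_ge (x : BS) (k l : ℕ) : R x (2 * k) ≤ pos x k l := by
  unfold pos; omega

theorem big (g w : BS) {k l m : ℕ} (hl : l < 3) (hm : k < m) :
    g (pos (xg g) k l) < code (xg g) w m := by
  have h1 := g_pos_lt g k l hl
  have h2 := lt_R (xg g) (2 * k + 1)
  have h3 : R (xg g) (2 * k + 1 + 1) ≤ R (xg g) (2 * m) :=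
    (R_strictMono (xg g)).monotone (by omega)
  have h4 : R (xg g) (2 * m) ≤ code (xg g) w m := le_cv _ _ _
  omega

theorem small {g : BS} (hg : Function.Injective g) {k l : ℕ} (hk : 1 ≤ k) :
    Bd (k - 1) (R (xg g) (2 * (k - 1))) < g (pos (xg g) k l) := by
  by_contra hcon
  rw [not_lt] at hcon
  have h1 := lt_of_le_Bd hg (k - 1) _ hcon
  have h2 := lt_R (xg g) (2 * (k - 1) + 1)
  have h3 : 2 * (k - 1) + 1 + 1 = 2 * k := by omega
  rw [h3] at h2
  have h4 := pos_ge (xg g) k l
  omega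

theorem key {g : BS} (hg : Function.Injective g) (w : BS) {k l : ℕ} (hk : 1 ≤ k) (hl : l < 3)
    (hwk : w k ≠ 0) (hf : flag w ≠ 0) (hne : F (xg g) w (pos (xg g) k l) ≠ g (pos (xg g) k l)) :
    ∃ m, F (xg g) w m = g (pos (xg g) k l) ∧ (m = k ∨ (m ≤ k ∧ m % 3 = 2 ∧ w (m / 3) ≠ 0)) := by
  set x := xg g with hx
  set n := pos x k l with hn
  have hn' : n = 12 * R x (2 * k) + 3 * l + 1 := hn
  have hkn : k ≤ n := by
    have := le_R x (2 * k)
    omega
  have hMk : Mk x w n := ⟨by omega, hf, k, hk, hwk, by omega⟩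
  have hx2n : x (2 * n) = g n := xg_even g n
  rcases F_cases x w n with ⟨h0, h⟩ | ⟨h0, h1, h⟩ | ⟨h0, h1, h⟩
  · have := h0.1; omega
  · exact absurd (h.trans hx2n) hne
  · have h2 : x (2 * n) ∈ used x w n := by
      by_contra hcon
      apply h1
      refine ⟨hMk, hcon, fun m hm => ?_⟩
      rw [hx2n]
      have := big g w (k := k) (l := l) (m := m) hl (by omega)
      exact this.ne
    rw [mem_used] at h2
    obtain ⟨m, hm, hF⟩ := h2
    rw [hx2n] at hF
    refine ⟨m, hF, ?_⟩
    have hsm : Bd (k - 1) (R x (2 * (k - 1))) < g n := small hg hk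
    rcases F_cases x w m with ⟨h0', h'⟩ | ⟨h0', h1', h'⟩ | ⟨h0', h1', h'⟩
    · exfalso
      obtain ⟨h3, i, hi⟩ := h0'
      have h4 := mex_used_le x w m
      rcases Nat.lt_or_ge i k with hlt | hge
      · have h5 := le_Bd1 x (show i ≤ k - 1 by omega)
        omega
      · have h6 : R x (2 * k) ≤ R x (2 * i) := (R_strictMono x).monotone (by omega)
        omega
    · exfalso
      rw [h'] at hF
      have h3 : x (2 * m) = g m := xg_even g m
      rw [h3] at hF
      have := hg hF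
      omega
    · rw [h'] at hF
      have hmk : m ≤ k := by
        by_contra hcon
        have := big g w (k := k) (l := l) (m := m) hl (by omega)
        have h5 : g n < code x w m := this
        omega
      rcases Nat.lt_or_ge m k with hlt | hge
      · right
        have h3 : cc w m ≠ 0 := by
          intro hc
          have h4 : code x w m = cv m (R x (2 * m)) 0 := by unfold code; rw [hc]
          have h5 := le_Bd2 x (show m ≤ k - 1 by omega)
          omega
        unfold cc at h3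
        by_cases h5 : m % 3 = 2
        · rw [if_pos h5] at h3
          exact ⟨hmk, h5, h3⟩
        · rw [if_neg h5] at h3
          exact absurd rfl h3
      · left; omega

theorem pos_inj {x : BS} {k k' l l' : ℕ} (hl : l < 3) (hl' : l' < 3)
    (h : pos x k l = pos x k' l') : k = k' ∧ l = l' := by
  unfold pos at h
  have h1 : R x (2 * k) = R x (2 * k') := by omega
  have h2 := (R_strictMono x).injective h1
  constructor
  · omega
  · omega

/-- maximality when blocks are marked -/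
theorem max_flag {g : BS} (hg : Function.Injective g) (w : BS) (hf : flag w ≠ 0)
    (κ : ℕ → ℕ) (hκ : StrictMono κ) (hκw : ∀ r, w r ≠ 0 ↔ ∃ i, κ i = r) :
    {n | F (xg g) w n = g n}.Infinite := by
  intro hfin
  obtain ⟨N0, hN0⟩ := hfin.bddAbove
  have hex : ∀ i l, ∃ m, l < 3 → (F (xg g) w m = g (pos (xg g) (κ (N0 + 1 + i)) l) ∧
      (m = κ (N0 + 1 + i) ∨ (m ≤ κ (N0 + 1 + i) ∧ m % 3 = 2 ∧ w (m / 3) ≠ 0))) := by
    intro i l
    by_cases hl : l < 3
    · have h1 := hκ.id_le (N0 + 1 + i)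
      simp only [id] at h1
      have h2 : F (xg g) w (pos (xg g) (κ (N0 + 1 + i)) l) ≠ g (pos (xg g) (κ (N0 + 1 + i)) l) := by
        intro heq
        have h3 := hN0 heq
        have h4 := pos_ge (xg g) (κ (N0 + 1 + i)) l
        have h5 := le_R (xg g) (2 * κ (N0 + 1 + i))
        omega
      obtain ⟨m, hm⟩ := key hg w (by omega) hl ((hκw _).2 ⟨_, rfl⟩) hf h2
      exact ⟨m, fun _ => hm⟩
    · exact ⟨0, fun h => absurd h hl⟩
  choose mf hmf using hex
  set N := 2 * (N0 + 1) + 1 with hN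
  have hcard : (Finset.range N ×ˢ Finset.range 3).card ≤
      ((Finset.range (N0 + 1 + N)).image κ ∪
        (Finset.range (N0 + 1 + N)).image (fun j => 3 * κ j + 2)).card := by
    apply Finset.card_le_card_of_injOn (fun q : ℕ × ℕ => mf q.1 q.2)
    · rintro ⟨i, l⟩ hq
      rw [Finset.mem_coe, Finset.mem_product, Finset.mem_range, Finset.mem_range] at hq
      obtain ⟨_, h2⟩ := hmf i l hq.2
      rw [Finset.mem_coe, Finset.mem_union, Finset.mem_image, Finset.mem_image]
      have hi : i < N := hq.1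
      rcases h2 with h2 | ⟨h2, h3, h4⟩
      · left
        exact ⟨N0 + 1 + i, Finset.mem_range.2 (by omega), h2.symm⟩
      · right
        obtain ⟨j, hj⟩ := (hκw _).1 h4
        refine ⟨j, Finset.mem_range.2 ?_, ?_⟩
        · have h5 : κ j < κ (N0 + 1 + i) := by omega
          have := hκ.lt_iff_lt.1 h5
          omega
        · show 3 * κ j + 2 = mf i l
          omega
    · rintro ⟨i, l⟩ hq ⟨i', l'⟩ hq' heq
      rw [Finset.mem_coe, Finset.mem_product, Finset.mem_range, Finset.mem_range] at hq hq'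
      obtain ⟨h1, _⟩ := hmf i l hq.2
      obtain ⟨h1', _⟩ := hmf i' l' hq'.2
      have heq' : mf i l = mf i' l' := heq
      rw [heq'] at h1
      have h2 := hg (h1.symm.trans h1')
      obtain ⟨h3, h4⟩ := pos_inj hq.2 hq'.2 h2
      have h5 := hκ.injective h3
      rw [Prod.mk.injEq]
      exact ⟨by omega, h4⟩
  rw [Finset.card_product, Finset.card_range, Finset.card_range] at hcard
  have h1 := Finset.card_union_le ((Finset.range (N0 + 1 + N)).image κ)
    ((Finset.range (N0 + 1 + N)).image (fun j => 3 * κ j + 2))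
  have h2 : ((Finset.range (N0 + 1 + N)).image κ).card ≤ N0 + 1 + N := by
    have := Finset.card_image_le (s := Finset.range (N0 + 1 + N)) (f := κ)
    rwa [Finset.card_range] at this
  have h3 : ((Finset.range (N0 + 1 + N)).image (fun j => 3 * κ j + 2)).card ≤ N0 + 1 + N := by
    have := Finset.card_image_le (s := Finset.range (N0 + 1 + N)) (f := fun j => 3 * κ j + 2)
    rwa [Finset.card_range] at this
  omega

/-! ### branches -/

/-- `y` explains the value at the candidate `l` of block `k` -/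
def Good (x : BS) (k l : ℕ) (y : BS) : Prop :=
  x (2 * pos x k l) = cv (pos x k l) (R y (2 * pos x k l)) 0

theorem good_agree {x : BS} {k l : ℕ} {y z : BS} (hy : Good x k l y) (hz : Good x k l z) :
    ∀ i < 2 * pos x k l, y i = z i := by
  unfold Good at hy hz
  rw [hy] at hz
  obtain ⟨_, h, _⟩ := cv_inj hz
  exact (R_inj h).2

theorem pos_lt {x : BS} {k k' l l' : ℕ} (hl : l < 3) (h : k < k') : pos x k l < pos x k' l' := by
  have := (R_strictMono x) (show 2 * k < 2 * k' by omega)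
  unfold pos
  omega

/-- from an infinite set homogeneous of colour 1 to a branch -/
theorem exists_branch (x : BS) (H : Set ℕ) (hH : Unb H)
    (hcol : ∀ k ∈ H, ∀ k' ∈ H, k < k' → Col x k k') :
    ∃ l < 3, ∃ y : BS, ∀ N, ∃ k, N < k ∧ Good x k l y := by
  have hne : (cofinite ⊓ 𝓟 H).NeBot := by
    rw [← frequently_mem_iff_neBot, frequently_cofinite_iff_infinite]
    apply Set.infinite_of_not_bddAbove
    rintro ⟨N, hN⟩
    obtain ⟨b, hb1, hb2⟩ := hH N
    exact absurd (hN hb2) (by omega)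
  set U : Ultrafilter ℕ := @Ultrafilter.of ℕ (cofinite ⊓ 𝓟 H) hne with hU
  have hUle : (U : Filter ℕ) ≤ cofinite ⊓ 𝓟 H := @Ultrafilter.of_le ℕ (cofinite ⊓ 𝓟 H) hne
  have hUH : ∀ᶠ k in (U : Filter ℕ), k ∈ H := by
    apply (hUle.trans inf_le_right)
    exact mem_principal_self H
  have hUgt : ∀ m : ℕ, ∀ᶠ k in (U : Filter ℕ), m < k := by
    intro m
    apply (hUle.trans inf_le_left)
    rw [mem_cofinite]
    refine (Set.finite_Iic m).subset ?_
    intro b hb
    rw [Set.mem_Iic]
    by_contra hcon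
    exact hb (show m < b by omega)
  let P : Fin 3 × Fin 3 → ℕ → ℕ → Prop := fun q k k' => ∃ y, Good x k q.1 y ∧ Good x k' q.2 y
  have h1 : ∀ k ∈ H, ∃ q, ∀ᶠ k' in (U : Filter ℕ), P q k k' := by
    intro k hk
    rw [← Ultrafilter.eventually_exists_iff]
    filter_upwards [hUH, hUgt k] with k' hk' hlt
    obtain ⟨l, hl, l', hl', y, hy⟩ := hcol k hk k' hk' hlt
    exact ⟨(⟨l, hl⟩, ⟨l', hl'⟩), y, hy⟩
  have h2 : ∃ q, ∀ᶠ k in (U : Filter ℕ), ∀ᶠ k' in (U : Filter ℕ), P q k k' := by
    rw [← Ultrafilter.eventually_exists_iff]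
    filter_upwards [hUH] with k hk
    exact h1 k hk
  obtain ⟨⟨l, l'⟩, hP⟩ := h2
  -- the good blocks
  set G : Set ℕ := {k | ∀ᶠ k' in (U : Filter ℕ), P (l, l') k k'} with hG
  have hGU : ∀ N, ∃ k, N < k ∧ k ∈ G := by
    intro N
    exact ((hUgt N).and hP).exists
  have hcoh : ∀ k1 ∈ G, ∀ k2 ∈ G, ∀ y1 y2, k1 ≤ k2 → Good x k1 l y1 → Good x k2 l y2 →
      ∀ i < 2 * pos x k1 l, y1 i = y2 i := by
    intro k1 hk1 k2 hk2 y1 y2 hle hy1 hy2 i hi
    obtain ⟨k', ⟨z1, hz1, hz1'⟩, ⟨z2, hz2, hz2'⟩, hgt⟩ := (hk1.and (hk2.and (hUgt k2))).exists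
    have hp1 : pos x k1 l < pos x k' l' := pos_lt l.2 (by omega)
    have hp2 : pos x k1 l ≤ pos x k2 l := by
      rcases hle.eq_or_lt with rfl | hlt
      · exact le_rfl
      · exact (pos_lt l.2 hlt).le
    have hz1a : Good x k' (l' : ℕ) z1 := hz1'
    have hz2a : Good x k' (l' : ℕ) z2 := hz2'
    rw [good_agree hy1 hz1 i hi, good_agree hy2 hz2 i (by omega),
      good_agree hz1a hz2a i (by omega)]
  have hexy : ∀ k ∈ G, ∃ y, Good x k l y := by
    intro k hk
    obtain ⟨k', y, hy, _⟩ := hk.exists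
    exact ⟨y, hy⟩
  choose kk hkk1 hkk2 using fun t : ℕ => hGU t
  choose yy hyy using fun t : ℕ => hexy (kk t) (hkk2 t)
  refine ⟨l, l.2, fun t => yy t t, fun N => ?_⟩
  obtain ⟨k, hk1, hk2⟩ := hGU N
  refine ⟨k, hk1, ?_⟩
  obtain ⟨y, hy⟩ := hexy k hk2
  have hagree : ∀ i < 2 * pos x k l, yy i i = y i := by
    intro i hi
    rcases le_total (kk i) k with hle | hge
    · apply hcoh (kk i) (hkk2 i) k hk2 (yy i) y hle (hyy i) hy
      have h3 := pos_ge x (kk i) l
      have h4 := le_R x (2 * kk i)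
      have h5 := hkk1 i
      omega
    · exact (hcoh k hk2 (kk i) (hkk2 i) y (yy i) hge hy (hyy i) i hi).symm
  unfold Good at hy ⊢
  rw [hy]
  congr 1
  exact (R_congr (fun i hi => hagree i hi)).symm

/-- maximality when no block is marked -/
theorem max_noflag {g : BS} (W : BS → BS) (hf : flag (W (xg g)) = 0)
    (H : Set ℕ) (hH : Unb H) (hcol : ∀ k ∈ H, ∀ k' ∈ H, k < k' → Col (xg g) k k') :
    ∃ y, {n | F y (W y) n = g n}.Infinite := by
  obtain ⟨l, hl, y, hy⟩ := exists_branch (xg g) H hH hcol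
  refine ⟨y, ?_⟩
  have hmain : ∃ M, ∀ k, M < k → Good (xg g) k l y →
      F y (W y) (pos (xg g) k l) = g (pos (xg g) k l) := by
    have hval : ∀ k, Good (xg g) k l y → ¬ Mk y (W y) (pos (xg g) k l) →
        F y (W y) (pos (xg g) k l) = g (pos (xg g) k l) := by
      intro k hk hM
      have hmod : pos (xg g) k l % 12 = 3 * l + 1 := by unfold pos; omega
      rcases F_cases y (W y) (pos (xg g) k l) with ⟨h0, _⟩ | ⟨_, h1, _⟩ | ⟨_, _, h⟩
      · have := h0.1; omega
      · exact absurd h1.1 hM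
      · rw [h]
        unfold Good at hk
        rw [xg_even] at hk
        rw [hk]
        unfold code cc
        rw [if_neg (by omega)]
    by_cases hxy : y = xg g
    · refine ⟨0, fun k _ hk => hval k hk ?_⟩
      intro hM
      rw [hxy] at hM
      exact hM.2.1 hf
    · obtain ⟨i, hi⟩ := Function.ne_iff.1 hxy
      refine ⟨i, fun k hk hk2 => hval k hk2 ?_⟩
      rintro ⟨_, _, k', _, _, hk'⟩
      have h1 : R y (2 * k') = R (xg g) (2 * k) := by
        rw [hk']; unfold pos; omega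
      obtain ⟨h2, h3⟩ := R_inj h1
      exact hi (h3 i (by omega))
  obtain ⟨M, hM⟩ := hmain
  apply Set.infinite_of_forall_exists_gt
  intro N
  obtain ⟨k, hk1, hk2⟩ := hy (max M N)
  refine ⟨pos (xg g) k l, hM k (lt_of_le_of_lt (le_max_left _ _) hk1) hk2, ?_⟩
  have h1 : N < k := lt_of_le_of_lt (le_max_right _ _) hk1
  have h2 := pos_ge (xg g) k l
  have h3 := le_R (xg g) (2 * k)
  omega

/-- There is a closed maximal eventually different family of permutations of `ℕ`. -/
theorem result : ∃ A : Set (ℕ → ℕ), IsClosed A ∧ (∀ f ∈ A, Function.Bijective f) ∧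
    (∀ f ∈ A, ∀ g ∈ A, f ≠ g → {n | f n = g n}.Finite) ∧
    ∀ g : ℕ → ℕ, Function.Bijective g → ∃ f ∈ A, {n | f n = g n}.Infinite := by
  obtain ⟨W, hW, hhom, hκ, h1⟩ := exists_witness
  refine ⟨{h : BS | ∃ x, h = F x (W x)}, isClosed_family hW, ?_, ?_, ?_⟩
  · rintro f ⟨x, rfl⟩
    exact F_bijective x (W x)
  · rintro f ⟨x, rfl⟩ g ⟨y, rfl⟩ hne
    apply almost_disjoint (fun hxy => hne (by rw [hxy])) (hhom x) (hhom y)
  · intro g hg
    by_cases hf : flag (W (xg g)) = 0
    · obtain ⟨H, hH, _, hcol⟩ := h1 (xg g) hf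
      obtain ⟨y, hy⟩ := max_noflag W hf H hH hcol
      exact ⟨F y (W y), ⟨y, rfl⟩, hy⟩
    · obtain ⟨κ, hκ1, _, hκ2⟩ := hκ (xg g)
      exact ⟨F (xg g) (W (xg g)), ⟨xg g, rfl⟩, max_flag hg.injective _ hf κ hκ1 hκ2⟩

end Pool.Agent.Results.MP_6a83a4_lc.ClosedMedPerm
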